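import Pool.Agent.H167R3.AG.BlockWild

/-!
# Small circuits for graph isomorphism contain many gates that are far from symmetric

Whether two graphs are isomorphic does not change when the first graph is relabeled, in particular
by a permutation that preserves `k` given blocks of `b` vertices. Here it is shown that the functions
computed inside a small circuit for graph isomorphism cannot all be nearly invariant.

First, the wirings of the gates of every circuit that decides isomorphism (with arbitrary gates of
unbounded fan-in, over any set of values, no symmetry assumed) have at least `b ^ (k / K)` different
transforms under the block permutations of the first graph. Second, let the circuit have fan-in at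
most `w`, and let `t` be the number of the gates whose functions have more than `m` different
transforms under these permutations. Then `b ^ k ≤ (|C| * (b ^ 2 * m ^ w) ^ (t + 1)) ^ K`. So if
graph isomorphism is in P then the circuits of fan-in two obtained from an algorithm contain, for
pairs of graphs with `n` vertices, at least `c n / log m` gates whose functions have more than `m`
transforms under the permutations that preserve `n / K` blocks of size `K`. (Simple functions such as
the number of edges do not need such gates: sum first over the pairs of vertices in two given
blocks.)
-/

namespace Pool.Agent.Results.MP_f1a348_lc.AsymmetricGates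

open Pool.Agent.H429R4.Sem (Circuit)
open Pool.Agent.H429R4.GC (adjPair numWirings)
open Pool.Agent.H167R3.AG (numWild firstBlockRelabelings)

/-- **The number of asymmetric gates in circuits for graph isomorphism.** -/
theorem result : ∃ K : ℕ, ∀ (W : Type) [Finite W] (k b : ℕ) (φ : Fin k × Fin b ↪ W),
    K ≤ k → K ≤ b → ∀ (D L : Type) (C : Circuit ((W × W) ⊕ (W × W)) D L) (acc : Set D),
    (∀ G H : SimpleGraph W, C.output (adjPair (G, H)) ∈ acc ↔ Nonempty (G ≃g H)) →
    b ^ k ≤ numWirings adjPair C (firstBlockRelabelings φ) ^ K ∧
    ∀ m w : ℕ, 0 < m → (∀ g, Multiset.card (C.wires g) ≤ w) →
      b ^ k ≤ (C.size * (b ^ 2 * m ^ w) ^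
        (numWild adjPair C (firstBlockRelabelings φ) m + 1)) ^ K :=
  Pool.Agent.H167R3.AG.iso_wild

end Pool.Agent.Results.MP_f1a348_lc.AsymmetricGates
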