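import Pool.Agent.H429R4.GC.Iso

/-!
# Graph isomorphism needs exponentially many wirings up to relabeling of one graph

A relabeling of the first of two graphs turns the wiring of a gate of a circuit that reads both
graphs (the bit that the gate reads, and the multiset of the labelled functions on the wires that
enter it) into a transform of the wiring. No symmetry of the circuit is assumed, the circuit is
nonuniform, and the gates may compute arbitrary functions of unbounded fan-in with values in an
arbitrary set. We show that a circuit for the isomorphism of graphs on `n` vertices has at least
`2 ^ (n / K)` different transforms of wirings. In fact there are two graphs `G` and `H`, where `G`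
has a clique of size `k` and `H` has no clique of size `k / R`, such that all circuits with fewer
wirings output any value for exactly as many relabelings of `G` as of `H`, whatever the second
graph is; so they cannot tell the isomorphic pairs `(G', G)`, where `G'` is a relabeling of `G`,
from the pairs `(H', G)`, where `H'` is a relabeling of `H`.
-/

namespace Pool.Agent.Results.MP_f1a348_lc.FewRelabelings

open Pool.Agent.H429R4.Sem (Circuit)
open Pool.Agent.H429R4.GC

/-- **Graph isomorphism needs exponentially many wirings up to relabeling of one graph.**
For every `R > 0` there is a constant `K` such that on every finite set `W` with at least `K`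
elements there are two graphs `G` and `H` that are not isomorphic (for some `k`, `G` has a clique of
size `k` while `H` has no clique of any size `q` with `k ≤ R * q`) with the following property. For every
circuit (with arbitrary gates) that reads two graphs on `W` and for which the number `T` of the
different transforms of the wirings of its gates under the relabelings of the first graph satisfies
`T ^ K < 2 ^ |W|`, for every graph `F` and every value `d`: there are exactly as many relabelings
`σ` for which the circuit outputs `d` on `(G.comap σ, F)` as relabelings `σ` for which it outputs
`d` on `(H.comap σ, F)`. -/
theorem result {R : ℕ} (hR : 0 < R) :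
    ∃ K : ℕ, ∀ (W : Type) [Fintype W], K ≤ Fintype.card W →
      ∃ (G H : SimpleGraph W) (k : ℕ), ¬ G.CliqueFree k ∧ (∀ q, k ≤ R * q → H.CliqueFree q) ∧
        IsEmpty (G ≃g H) ∧
        ∀ (D L : Type) (C : Circuit ((W × W) ⊕ (W × W)) D L) (d : D),
          numWirings adjPair C (firstRelabelings W) ^ K < 2 ^ Fintype.card W →
          ∀ F : SimpleGraph W,
            Nat.card {σ : Equiv.Perm W // C.output (adjPair (G.comap σ, F)) = d} =
              Nat.card {σ : Equiv.Perm W // C.output (adjPair (H.comap σ, F)) = d} :=
  iso_pair hR

end Pool.Agent.Results.MP_f1a348_lc.FewRelabelings
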