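import Pool.Agent.H502R3.FP.Pair

/-!
# Two fixed nonisomorphic graphs that no small locally symmetric network tells apart

Networks are acyclic, their input gates read single edge variables and every other gate computes an
arbitrary function of the number of its true incoming wires. A network is symmetric on a block of
five vertices if every even permutation of the block (all other vertices being fixed) extends to an
automorphism of the network fixing the output gates.

For `k ≥ 1`, `r ≥ 7000 k` and every finite set `V` with at least `5 r` elements there are two
nonisomorphic graphs `H`, `H'` on `V` with degrees at most nine such that for all disjoint blocks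
`blk 0, …, blk (r - 1)` some copies `G` of `H` and `G'` of `H'` on `V` get the same output, bit by
bit, from every network with less than `5 ^ k` gates which is symmetric on all the blocks; the same
holds for networks which read a further graph `K` on a further set `U` of vertices, whatever `K` is.
In particular, a network with less than `5 ^ k` gates that is symmetric on `r` disjoint blocks
(of its first graph) neither decides isomorphism to `H`, nor isomorphism of pairs of graphs, nor
computes any family of isomorphism invariants that separates `H` from `H'`.

Conversely, every network of NAND gates for an isomorphism invariant property can be made symmetric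
on any `r` disjoint blocks when its size grows by a factor of about `60 ^ r`.

The first part strengthens the lower bounds of the starting library
`Pool/Agent/H550R2/SymGI/Main.lean` (`lower_single`, `lower_pair`), in which the second graph
depends on the network; the induction of `Pool/Agent/H545R2/SymNet.lean` is repeated in
`Pool/Agent/H502R3/FP/Abs.lean` with a charged node that does not depend on the network.
-/

set_option autoImplicit false

namespace Pool.Agent.Results.MP_f1a348_lc.FixedPairNetworks

open Pool.Agent.H545R2 Pool.Agent.H550R2.SymGI Pool.Agent.H502R3.FP

theorem result :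
    (∀ (V : Type) [Fintype V] (r k : ℕ), 0 < k → 7000 * k ≤ r → 5 * r ≤ Fintype.card V →
      ∃ H H' : SimpleGraph V, (∀ v, (H.neighborSet v).ncard ≤ 9) ∧
        (∀ v, (H'.neighborSet v).ncard ≤ 9) ∧ ¬ Nonempty (H ≃g H') ∧
        ∀ blk : Fin r → (Fin 5 ↪ V),
          (Pairwise fun i j => Disjoint (Set.range (blk i)) (Set.range (blk j))) →
          ∃ G G' : SimpleGraph V, Nonempty (G ≃g H) ∧ Nonempty (G' ≃g H') ∧
            (∀ (Gt : Type) [Fintype Gt] (N : Net V Gt) (O : Set Gt),
              (∀ i, SymFix N O (blk i)) → Fintype.card Gt < 5 ^ k →
              ∀ o ∈ O, N.val G o = N.val G' o) ∧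
            ∀ (U Gt : Type) [Fintype Gt] (N : Net (V ⊕ U) Gt) (O : Set Gt),
              (∀ i, SymFix N O (inlBlk (blk i))) → Fintype.card Gt < 5 ^ k →
              ∀ K : SimpleGraph U, ∀ o ∈ O, N.val (G ⊕g K) o = N.val (G' ⊕g K) o) ∧
    (∀ (V Gt : Type) [Fintype V] [Fintype Gt] (N : Net V Gt), N.IsNand →
      ∀ Q : SimpleGraph V → Prop, (∀ G H : SimpleGraph V, Nonempty (G ≃g H) → Q G → Q H) →
      (∀ G : SimpleGraph V, (N.val G N.out = true ↔ Q G)) →
      ∀ (r : ℕ) (blk : Fin r → (Fin 5 ↪ V)),
        (Pairwise fun i j => Disjoint (Set.range (blk i)) (Set.range (blk j))) →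
        ∃ (Gt' : Type) (_ : Fintype Gt') (N' : Net V Gt'), N'.IsNand ∧
          (∀ G : SimpleGraph V, (N'.val G N'.out = true ↔ Q G)) ∧
          (∀ i, SymFix N' {N'.out} (blk i)) ∧
          Fintype.card Gt' = 60 ^ r * (Fintype.card Gt + 1) + 1) :=
  ⟨fun V _ r k hk hkr hr => fixed_pair V r k hk hkr hr,
    fun V Gt _ _ N hnand Q hQ hN r blk hd => symmetrize V Gt N hnand Q hQ hN r blk hd⟩

end Pool.Agent.Results.MP_f1a348_lc.FixedPairNetworks
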